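import Pool.Agent.Helper7.PX.Goals
import Pool.Agent.Helper59.RR.PW

/-!
Packet PX-FD: at a prime the labels can be summed up.
-/

set_option autoImplicit false

open Finset Filter Topology

open scoped Classical

namespace Pool.Agent.Helper13.PX

open Pool.Agent.Helper88.PP (pr Rg om Sf SS uu vv ee LA VV QQ cost)
open Pool.Agent.Helper88.RR (gg ab TB nz Db VM)
open Pool.Agent.Helper88.GM (NI XI In)
open Pool.Agent.Helper88.CG (pw qE mE)
open Pool.Agent.Helper88.TU (Su)
open Pool.Agent.Helper7.PX

theorem fd : StmtFD := by
  intro E z y P h n a hM hm1 hz hm2 hp hn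
  set A := LA z (mE E) (qE E * mE E) with hA
  have hAsub : A ⊆ SS z (z ^ (E / 16)) := Pool.Agent.Helper59.RR.LA_sub hz hm2
  have hvv : ∀ s ∈ insert 0 A, vv y z s (n + (h : ℕ)) = 1 := by
    intro s hs
    rcases Finset.mem_insert.1 hs with rfl | hs
    · simp [vv]
    · exact Pool.Agent.Helper59.RR.vv_one hM hz hp hn (by omega) (hAsub hs)
  have hmemTT : ∀ r : P → ℕ, r ∈ TE E z P ↔
      (∀ i, r i ∈ insert 0 A) ∧ cost z r ≤ E / 16 := by
    intro r
    unfold TE TB
    rw [mem_filter, Fintype.mem_piFinset]
  have hcost : ∀ r : P → ℕ, cost z (Function.update r h 0) ≤ cost z r := by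
    intro r
    unfold cost
    apply Finset.sum_le_sum
    intro i _
    by_cases hi : i = h
    · subst hi
      rw [Function.update_self]
      simp
    · rw [Function.update_of_ne hi]
  have hmaps : ∀ r ∈ TE E z P, Function.update r h 0 ∈
      (TE E z P).filter (fun r => r h = 0) := by
    intro r hr
    rw [hmemTT] at hr
    rw [mem_filter, hmemTT]
    refine ⟨⟨?_, ?_⟩, ?_⟩
    · intro i
      by_cases hi : i = h
      · subst hi; rw [Function.update_self]; exact mem_insert_self 0 A
      · rw [Function.update_of_ne hi]; exact hr.1 i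
    · exact (hcost r).trans hr.2
    · simp
  set F : (P → ℕ) → ℝ := fun r => ∏ i : P, vv y z (r i) (n + (i : ℕ)) with hF
  have hFu : ∀ (r' : P → ℕ), r' h = 0 → ∀ s ∈ insert 0 A,
      F (Function.update r' h s) = F r' := by
    intro r' hr' s hs
    simp only [hF]
    rw [Pool.Agent.Helper59.RR.prod_split h (fun i t => vv y z t (n + (i : ℕ))) r' s,
      ← Finset.mul_prod_erase univ (fun i : P => vv y z (r' i) (n + (i : ℕ))) (mem_univ h),
      hvv s hs, hr', hvv 0 (mem_insert_self _ _)]
  have hstep : ∀ r' ∈ (TE E z P).filter (fun r => r h = 0),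
      ∑ r ∈ (TE E z P).filter (fun r => Function.update r h 0 = r'), a r * F r =
        fold E z h a r' * F r' := by
    intro r' hr'
    rw [mem_filter] at hr'
    obtain ⟨hr1, hr3⟩ := hr'
    have e1 : ∑ r ∈ (TE E z P).filter (fun r => Function.update r h 0 = r'), a r * F r =
        ∑ s ∈ (insert 0 A).filter (fun s => Function.update r' h s ∈ TE E z P),
          a (Function.update r' h s) * F (Function.update r' h s) := by
      refine Finset.sum_bij' (fun r _ => r h) (fun s _ => Function.update r' h s) ?_ ?_ ?_ ?_ ?_
      · intro r hr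
        rw [mem_filter] at hr
        obtain ⟨ha, hd⟩ := hr
        have h5 : Function.update r' h (r h) = r := by
          rw [← hd]; simp
        rw [mem_filter, h5]
        exact ⟨((hmemTT r).1 ha).1 h, ha⟩
      · intro s hs
        rw [mem_filter] at hs
        rw [mem_filter]
        refine ⟨hs.2, ?_⟩
        rw [Function.update_idem]
        conv_rhs => rw [← Function.update_eq_self h r', hr3]
      · intro r hr
        rw [mem_filter] at hr
        rw [← hr.2]; simp
      · intro s _
        simp
      · intro r hr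
        rw [mem_filter] at hr
        have h5 : Function.update r' h (r h) = r := by
          rw [← hr.2]; simp
        rw [h5]
    rw [e1]
    unfold Pool.Agent.Helper7.PX.fold
    rw [if_pos hr3, Finset.sum_mul, Finset.sum_filter]
    refine Finset.sum_congr rfl fun s hs => ?_
    by_cases h6 : Function.update r' h s ∈ TE E z P
    · rw [if_pos h6, if_pos h6, hFu r' hr3 s hs]
    · rw [if_neg h6, if_neg h6, zero_mul]
  have hL : GW E z y a n = ∑ r ∈ TE E z P, a r * F r := rfl
  have hR : GW E z y (fold E z h a) n = ∑ r ∈ TE E z P, fold E z h a r * F r := rfl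
  rw [hL, hR, ← Finset.sum_fiberwise_of_maps_to hmaps, Finset.sum_congr rfl hstep,
    Finset.sum_filter]
  refine Finset.sum_congr rfl fun r _ => ?_
  by_cases h7 : r h = 0
  · rw [if_pos h7]
  · rw [if_neg h7]
    unfold Pool.Agent.Helper7.PX.fold
    rw [if_neg h7, zero_mul]

end Pool.Agent.Helper13.PX
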